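import Pool.Agent.N396.ZK.Norm

set_option autoImplicit false

namespace Pool.Agent.N396.ZK

open Finset Classical

variable {ι α β : Type}

/-- double counting of `s`-sets -/
lemma dcount (s : ℕ) (P : Finset α) (I : Finset ι) (S : ι → Finset α) (hS : ∀ i ∈ I, S i ⊆ P) :
    ∑ A ∈ P.powersetCard s, (I.filter (fun i => A ⊆ S i)).card = ∑ i ∈ I, (S i).card.choose s := by
  simp_rw [card_filter]
  rw [sum_comm]
  refine sum_congr rfl fun i hi => ?_
  rw [← card_filter, ← card_powersetCard]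
  congr 1
  ext A
  simp only [mem_filter, mem_powersetCard]
  exact ⟨fun h => ⟨h.2, h.1.2⟩, fun h => ⟨⟨h.1.trans (hS i hi), h.2⟩, h.1⟩⟩

/-- common rows of one, two, three columns -/
noncomputable def s1 (R : α → β → Prop) (P : Finset α) (y : β) : Finset α := P.filter (fun x => R x y)
noncomputable def s2 (R : α → β → Prop) (P : Finset α) (y z : β) : Finset α :=
  P.filter (fun x => R x y ∧ R x z)
noncomputable def s3 (R : α → β → Prop) (P : Finset α) (y z w : β) : Finset α :=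
  P.filter (fun x => (R x y ∧ R x z) ∧ R x w)

lemma s2_comm (R : α → β → Prop) (P : Finset α) (y z : β) : s2 R P y z = s2 R P z y := by
  ext x; simp only [s2, mem_filter]; tauto

lemma sub_s1 {R : α → β → Prop} {P A : Finset α} (hA : A ⊆ P) (y : β) :
    A ⊆ s1 R P y ↔ ∀ x ∈ A, R x y := by
  constructor
  · intro h x hx; exact (mem_filter.1 (h hx)).2
  · intro h x hx; exact mem_filter.2 ⟨hA hx, h x hx⟩

lemma sub_s2 {R : α → β → Prop} {P A : Finset α} (hA : A ⊆ P) (y z : β) :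
    A ⊆ s2 R P y z ↔ (∀ x ∈ A, R x y) ∧ (∀ x ∈ A, R x z) := by
  constructor
  · intro h
    exact ⟨fun x hx => (mem_filter.1 (h hx)).2.1, fun x hx => (mem_filter.1 (h hx)).2.2⟩
  · intro h x hx; exact mem_filter.2 ⟨hA hx, h.1 x hx, h.2 x hx⟩

lemma sub_s3 {R : α → β → Prop} {P A : Finset α} (hA : A ⊆ P) (y z w : β) :
    A ⊆ s3 R P y z w ↔ (∀ x ∈ A, R x y) ∧ (∀ x ∈ A, R x z) ∧ (∀ x ∈ A, R x w) := by
  constructor
  · intro h
    exact ⟨fun x hx => (mem_filter.1 (h hx)).2.1.1, fun x hx => (mem_filter.1 (h hx)).2.1.2,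
      fun x hx => (mem_filter.1 (h hx)).2.2⟩
  · intro h x hx; exact mem_filter.2 ⟨hA hx, ⟨h.1 x hx, h.2.1 x hx⟩, h.2.2 x hx⟩

/-- triples of different elements -/
noncomputable def tri (N : Finset β) : Finset ((β × β) × β) :=
  (N.offDiag ×ˢ N).filter (fun p => p.2 ≠ p.1.1 ∧ p.2 ≠ p.1.2)

lemma sum_tri (N : Finset β) (f : (β × β) × β → ℕ) :
    ∑ p ∈ tri N, f p = ∑ p ∈ N.offDiag, ∑ w ∈ (N.erase p.1).erase p.2, f (p, w) := by
  rw [tri, sum_filter, sum_product]
  refine sum_congr rfl fun p _ => ?_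
  rw [← sum_filter]
  refine sum_congr ?_ fun _ _ => rfl
  ext w
  simp only [mem_filter, mem_erase]
  tauto

lemma card_erase2 {N : Finset β} {y z : β} (hy : y ∈ N) (hz : z ∈ N) (hyz : y ≠ z) :
    ((N.erase y).erase z).card = N.card - 2 := by
  rw [card_erase_of_mem (mem_erase.2 ⟨hyz.symm, hz⟩), card_erase_of_mem hy]
  omega

lemma card_tri (N : Finset β) : (tri N).card = (N.card * N.card - N.card) * (N.card - 2) := by
  rw [card_eq_sum_ones, sum_tri, ← offDiag_card]
  rw [sum_congr rfl (g := fun _ => N.card - 2), sum_const, smul_eq_mul]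
  intro p hp
  rw [mem_offDiag] at hp
  rw [← card_eq_sum_ones, card_erase2 hp.1 hp.2.1 hp.2.2]

/-- first, second and third factorial moments of the number of common columns -/
lemma mom1 (R : α → β → Prop) (P : Finset α) (Q : Finset β) (s : ℕ) :
    ∑ A ∈ P.powersetCard s, (com R Q A).card = ∑ y ∈ Q, (s1 R P y).card.choose s := by
  rw [← dcount s P Q (fun y => s1 R P y) (fun _ _ => filter_subset _ _)]
  refine sum_congr rfl fun A hA => ?_
  rw [mem_powersetCard] at hA
  congr 1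
  ext y
  simp only [com, mem_filter, sub_s1 hA.1]

lemma mom2 (R : α → β → Prop) (P : Finset α) (Q : Finset β) (s : ℕ) :
    ∑ A ∈ P.powersetCard s, ((com R Q A).card * (com R Q A).card - (com R Q A).card) =
      ∑ p ∈ Q.offDiag, (s2 R P p.1 p.2).card.choose s := by
  rw [← dcount s P Q.offDiag (fun p => s2 R P p.1 p.2) (fun _ _ => filter_subset _ _)]
  refine sum_congr rfl fun A hA => ?_
  rw [mem_powersetCard] at hA
  rw [← offDiag_card]
  congr 1
  ext p
  simp only [com, mem_filter, sub_s2 hA.1, mem_offDiag]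
  tauto

lemma mom3 (R : α → β → Prop) (P : Finset α) (Q : Finset β) (s : ℕ) :
    ∑ A ∈ P.powersetCard s, ((com R Q A).card * (com R Q A).card - (com R Q A).card) *
        ((com R Q A).card - 2) =
      ∑ p ∈ Q.offDiag, ∑ w ∈ (Q.erase p.1).erase p.2, (s3 R P p.1 p.2 w).card.choose s := by
  rw [← sum_tri Q (fun p => (s3 R P p.1.1 p.1.2 p.2).card.choose s)]
  rw [← dcount s P (tri Q) (fun p => s3 R P p.1.1 p.1.2 p.2) (fun _ _ => filter_subset _ _)]
  refine sum_congr rfl fun A hA => ?_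
  rw [mem_powersetCard] at hA
  rw [← card_tri]
  congr 1
  ext p
  simp only [com, tri, mem_filter, sub_s3 hA.1, mem_offDiag, mem_product]
  tauto

/-- the bound for three columns -/
lemma up3 (R : α → β → Prop) (P : Finset α) (Q : Finset β) (s L : ℕ)
    (h : ∀ A ⊆ P, A.card = s → (com R Q A).card ≤ L + 2) {y z : β} (hy : y ∈ Q) (hz : z ∈ Q)
    (hyz : y ≠ z) :
    ∑ w ∈ (Q.erase y).erase z, (s3 R P y z w).card.choose s ≤ L * (s2 R P y z).card.choose s := by
  have h1 := dcount s (s2 R P y z) ((Q.erase y).erase z) (fun w => s3 R P y z w) (by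
    intro w _ x hx
    simp only [s3, s2, mem_filter] at hx ⊢
    exact ⟨hx.1, hx.2.1⟩)
  rw [← h1, ← card_powersetCard, mul_comm, ← smul_eq_mul]
  apply sum_le_card_nsmul
  intro A hA
  rw [mem_powersetCard] at hA
  have hAP : A ⊆ P := hA.1.trans (filter_subset _ _)
  have h2 := h A hAP hA.2
  have h3 := (sub_s2 hAP y z).1 hA.1
  have hyc : y ∈ com R Q A := mem_filter.2 ⟨hy, h3.1⟩
  have hzc : z ∈ com R Q A := mem_filter.2 ⟨hz, h3.2⟩
  have h4 : (((Q.erase y).erase z).filter (fun w => A ⊆ s3 R P y z w)) ⊆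
      ((com R Q A).erase y).erase z := by
    intro w hw
    simp only [mem_filter, mem_erase, com] at hw ⊢
    exact ⟨hw.1.1, hw.1.2.1, hw.1.2.2, ((sub_s3 hAP y z w).1 hw.2).2.2⟩
  have h5 := card_le_card h4
  rw [card_erase2 hyc hzc hyz] at h5
  omega

/-- degree sums -/
lemma sum1 (R : α → β → Prop) (P : Finset α) (Q : Finset β) :
    ∑ y ∈ Q, (s1 R P y).card = ∑ x ∈ P, (row R Q x).card :=
  (sum_card_bipartiteAbove_eq_sum_card_bipartiteBelow (s := P) (t := Q) R).symm

lemma sum2 (R : α → β → Prop) (P : Finset α) (Q : Finset β) {y : β} (hy : y ∈ Q) :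
    ∑ z ∈ Q.erase y, (s2 R P y z).card = ∑ x ∈ s1 R P y, ((row R Q x).card - 1) := by
  have h := sum1 R (s1 R P y) (Q.erase y)
  have e1 : ∀ z, s1 R (s1 R P y) z = s2 R P y z := by
    intro z; ext x; simp only [s1, s2, mem_filter]; tauto
  simp_rw [e1] at h
  rw [h]
  refine sum_congr rfl fun x hx => ?_
  have hxy : R x y := (mem_filter.1 hx).2
  have : row R (Q.erase y) x = (row R Q x).erase y := by
    ext z; simp only [row, mem_filter, mem_erase]; tauto
  rw [this, card_erase_of_mem (show y ∈ row R Q x from mem_filter.2 ⟨hy, hxy⟩)]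

lemma sum3 (R : α → β → Prop) (P : Finset α) (Q : Finset β) {y z : β} (hy : y ∈ Q) (hz : z ∈ Q)
    (hyz : y ≠ z) :
    ∑ w ∈ (Q.erase y).erase z, (s3 R P y z w).card = ∑ x ∈ s2 R P y z, ((row R Q x).card - 2) := by
  have h := sum1 R (s2 R P y z) ((Q.erase y).erase z)
  have e1 : ∀ w, s1 R (s2 R P y z) w = s3 R P y z w := by
    intro w; ext x; simp only [s1, s2, s3, mem_filter]; tauto
  simp_rw [e1] at h
  rw [h]
  refine sum_congr rfl fun x hx => ?_
  have hx2 := (mem_filter.1 hx).2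
  have : row R ((Q.erase y).erase z) x = ((row R Q x).erase y).erase z := by
    ext w; simp only [row, mem_filter, mem_erase]; tauto
  rw [this, card_erase2 (show y ∈ row R Q x from mem_filter.2 ⟨hy, hx2.1⟩)
    (show z ∈ row R Q x from mem_filter.2 ⟨hz, hx2.2⟩) hyz]

/-- the pointwise inequality -/
lemma pointwise (X L : ℕ) (h : X ≤ L + 2) :
    (((X * X - X) * (X - 2) : ℕ) : ℝ) + 2 * (L + 2) * X ≤
      (L + 2) * ((X * X - X : ℕ) : ℝ) + 2 * (L + 2) := by
  have e1 : ((X * X - X : ℕ) : ℝ) = X * X - X := by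
    rw [Nat.cast_sub (Nat.le_mul_self X)]; push_cast; rfl
  have e2 : (((X * X - X) * (X - 2) : ℕ) : ℝ) = (X * X - X) * (X - 2) := by
    rcases Nat.lt_or_ge X 2 with hX | hX
    · interval_cases X <;> simp
    · rw [Nat.cast_mul, e1, Nat.cast_sub hX]; push_cast; rfl
  rw [e1, e2]
  have h1 : (X : ℝ) ≤ L + 2 := by exact_mod_cast h
  have h2 : (0 : ℝ) ≤ (X - 1) * (X - 2) := by
    rcases Nat.lt_or_ge X 2 with hX | hX
    · interval_cases X <;> norm_num
    · have : (2 : ℝ) ≤ X := by exact_mod_cast hX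
      nlinarith
  nlinarith [mul_nonneg h2 (sub_nonneg.2 h1)]

/-- the moment inequality, with falling factorials -/
lemma moment_ineq (R : α → β → Prop) (P : Finset α) (Q : Finset β) (s L : ℕ)
    (h : ∀ A ⊆ P, A.card = s → (com R Q A).card ≤ L + 2) :
    ∑ p ∈ Q.offDiag, ∑ w ∈ (Q.erase p.1).erase p.2, ((s3 R P p.1 p.2 w).card.descFactorial s : ℝ) +
      2 * (L + 2) * ∑ y ∈ Q, ((s1 R P y).card.descFactorial s : ℝ) ≤
    (L + 2) * ∑ p ∈ Q.offDiag, ((s2 R P p.1 p.2).card.descFactorial s : ℝ) +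
      2 * (L + 2) * (P.card.descFactorial s : ℝ) := by
  have h1 : ∑ A ∈ P.powersetCard s, ((((com R Q A).card * (com R Q A).card - (com R Q A).card) *
        ((com R Q A).card - 2) : ℕ) : ℝ) + 2 * (L + 2) * ∑ A ∈ P.powersetCard s,
        ((com R Q A).card : ℝ) ≤
      (L + 2) * ∑ A ∈ P.powersetCard s,
        (((com R Q A).card * (com R Q A).card - (com R Q A).card : ℕ) : ℝ) +
        2 * (L + 2) * ((P.powersetCard s).card : ℝ) := by
    have := sum_le_sum (s := P.powersetCard s) (fun A hA => pointwise (com R Q A).card L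
      (h A (mem_powersetCard.1 hA).1 (mem_powersetCard.1 hA).2))
    rw [sum_add_distrib, sum_add_distrib, ← mul_sum, ← mul_sum, sum_const, nsmul_eq_mul] at this
    linarith
  rw [card_powersetCard, ← Nat.cast_sum, ← Nat.cast_sum, ← Nat.cast_sum, mom1, mom2, mom3] at h1
  have hf : (0 : ℝ) ≤ s.factorial := Nat.cast_nonneg _
  have h2 := mul_le_mul_of_nonneg_left h1 hf
  simp_rw [Nat.descFactorial_eq_factorial_mul_choose]
  push_cast at h2 ⊢
  simp_rw [← mul_sum]
  linarith

end Pool.Agent.N396.ZK
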