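import Pool.Agent.N396.ZK.Spec
import Pool.Agent.N49.ZK.Lim
import Pool.Agent.N271.ZK.Fin
import Pool.Agent.N199.ZK.Pick
import Pool.Agent.N690.ZK.Core2
import Pool.Agent.N547.ZK.Kst
import Pool.Agent.N547.ZK.Lpg
import Pool.Agent.N354.ZK.Chz
import Pool.Agent.N427.ZK.Sel

set_option autoImplicit false

namespace Pool.Agent.N396.ZK

open Finset Classical

theorem lpz' : StmLPZ :=
  Pool.Agent.N655.ZK.lpz
    (Pool.Agent.N690.ZK.core2 (Pool.Agent.N271.ZK.fin Pool.Agent.N49.ZK.lim)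
      Pool.Agent.N199.ZK.pick)
    Pool.Agent.N547.ZK.kst Pool.Agent.N427.ZK.sel

theorem lpg' : StmLPG := Pool.Agent.N547.ZK.lpg lpz'

/-- the bound for graphs -/
theorem graph_bound (r s t : ℕ) (μ h : ℝ) (hr : 1 ≤ r) (hs : 2 * r ≤ s) (hst : s ≤ t)
    (hμ : 0 < μ) (hh : (t : ℝ) - s + 2 * r - 1 < h) (hz : chR μ r h = 0) :
    ∃ n₀ : ℕ, ∀ n : ℕ, n₀ ≤ n →
    (SimpleGraph.extremalNumber n (completeBipartiteGraph (Fin s) (Fin t)) : ℝ) ≤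
      μ ^ (1 / (s : ℝ)) / 2 * (n : ℝ) ^ (2 - 1 / (s : ℝ)) := by
  obtain ⟨a, ha⟩ := Pool.Agent.N354.ZK.chz r (t - s + (2 * r - 1)) μ h hr hμ (by
    rw [Nat.cast_add, Nat.cast_sub hst, Nat.cast_sub (by omega)]
    push_cast; linarith) hz
  exact lpg' s t (2 * r - 1) μ a hst (by omega) (by omega) hμ ha

/-- the bound for the spectral radius -/
theorem spec_bound (r s t : ℕ) (μ h : ℝ) (hr : 1 ≤ r) (hs : 2 * r ≤ s) (hs3 : 3 ≤ s)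
    (hst : s ≤ t) (hμ : 0 < μ) (hh : (t : ℝ) - s + 2 * r - 1 < h) (hz : chR μ r h = 0) :
    ∃ n₀ : ℕ, ∀ n : ℕ, n₀ ≤ n → ∀ G : SimpleGraph (Fin n),
      (completeBipartiteGraph (Fin s) (Fin t)).Free G →
      ∀ (ρ : ℝ) (x : Fin n → ℝ), x ≠ 0 → (∀ u, ∑ v, ad G u v * x v = ρ * x u) →
      ρ ≤ μ ^ (1 / (s : ℝ)) * (n : ℝ) ^ (1 - 1 / (s : ℝ)) := by
  obtain ⟨a, ha⟩ := Pool.Agent.N354.ZK.chz r (t - s + (2 * r - 1)) μ h hr hμ (by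
    rw [Nat.cast_add, Nat.cast_sub hst, Nat.cast_sub (by omega)]
    push_cast; linarith) hz
  exact spec lpz' Pool.Agent.N547.ZK.kst s t (2 * r - 1) μ a hst (by omega) (by omega) hs3 hμ ha

end Pool.Agent.N396.ZK
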