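import Pool.Agent.N396.ZK.Stm

set_option autoImplicit false

namespace Pool.Agent.N396.ZK

open Finset Classical

variable {ι : Type}

lemma nm_nonneg (s : ℕ) (I : Finset ι) (f : ι → ℝ) (hf : ∀ i ∈ I, 0 ≤ f i) : 0 ≤ nm s I f :=
  Real.rpow_nonneg (sum_nonneg fun i hi => pow_nonneg (hf i hi) _) _

lemma nm_pow {s : ℕ} (hs : 1 ≤ s) (I : Finset ι) (f : ι → ℝ) (hf : ∀ i ∈ I, 0 ≤ f i) :
    nm s I f ^ s = ∑ i ∈ I, f i ^ s := by
  have h0 : 0 ≤ ∑ i ∈ I, f i ^ s := sum_nonneg fun i hi => pow_nonneg (hf i hi) _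
  have hs' : (s : ℝ) ≠ 0 := by positivity
  rw [nm, ← Real.rpow_natCast, ← Real.rpow_mul h0, one_div, inv_mul_cancel₀ hs', Real.rpow_one]

/-- to bound the norm, bound the power sum -/
lemma nm_le {s : ℕ} (hs : 1 ≤ s) (I : Finset ι) (f : ι → ℝ) (hf : ∀ i ∈ I, 0 ≤ f i) (b : ℝ)
    (hb : 0 ≤ b) (h : ∑ i ∈ I, f i ^ s ≤ b ^ s) : nm s I f ≤ b := by
  rw [← nm_pow hs I f hf] at h
  exact le_of_pow_le_pow_left₀ (by omega) hb h

lemma nm_mono {s : ℕ} (hs : 1 ≤ s) (I : Finset ι) (f g : ι → ℝ) (hf : ∀ i ∈ I, 0 ≤ f i)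
    (h : ∀ i ∈ I, f i ≤ g i) : nm s I f ≤ nm s I g := by
  have hg : ∀ i ∈ I, 0 ≤ g i := fun i hi => (hf i hi).trans (h i hi)
  apply nm_le hs I f hf _ (nm_nonneg s I g hg)
  rw [nm_pow hs I g hg]
  exact sum_le_sum fun i hi => pow_le_pow_left₀ (hf i hi) (h i hi) _

lemma nm_add_le {s : ℕ} (hs : 1 ≤ s) (I : Finset ι) (f g : ι → ℝ) (hf : ∀ i ∈ I, 0 ≤ f i)
    (hg : ∀ i ∈ I, 0 ≤ g i) : nm s I (fun i => f i + g i) ≤ nm s I f + nm s I g := by
  have h := Real.Lp_add_le_of_nonneg I (f := f) (g := g) (p := (s : ℝ)) (by exact_mod_cast hs) hf hg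
  simpa only [nm, Real.rpow_natCast] using h

lemma nm_mul {s : ℕ} (hs : 1 ≤ s) (I : Finset ι) (f : ι → ℝ) (hf : ∀ i ∈ I, 0 ≤ f i) (c : ℝ)
    (hc : 0 ≤ c) : nm s I (fun i => c * f i) = c * nm s I f := by
  have hs' : (s : ℝ) ≠ 0 := by positivity
  have : ∑ i ∈ I, (c * f i) ^ s = c ^ s * ∑ i ∈ I, f i ^ s := by
    rw [mul_sum]; exact sum_congr rfl fun i _ => mul_pow _ _ _
  rw [nm, this, Real.mul_rpow (pow_nonneg hc _) (sum_nonneg fun i hi => pow_nonneg (hf i hi) _),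
    ← Real.rpow_natCast, ← Real.rpow_mul hc, mul_one_div_cancel hs', Real.rpow_one, nm]

lemma nm_const_le {s : ℕ} (hs : 1 ≤ s) (I : Finset ι) (c w : ℝ) (hc : 0 ≤ c) (hw : 0 ≤ w)
    (h : (I.card : ℝ) ≤ w ^ s) : nm s I (fun _ => c) ≤ c * w := by
  apply nm_le hs I _ (fun _ _ => hc) _ (mul_nonneg hc hw)
  rw [sum_const, nsmul_eq_mul, mul_pow, mul_comm]
  exact mul_le_mul_of_nonneg_left h (pow_nonneg hc _)

lemma sub_pow_le_desc (z s : ℕ) : ((z + 1 - s : ℕ) : ℝ) ^ s ≤ (z.descFactorial s : ℝ) := by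
  exact_mod_cast Nat.pow_sub_le_descFactorial z s

/-- an upper bound for the norm from an upper bound for the sum of the binomials -/
lemma nm_le_of_choose {s : ℕ} (hs : 1 ≤ s) (I : Finset ι) (z : ι → ℕ) (k c : ℕ) (l w : ℝ)
    (hl : 0 ≤ l) (hls : l ^ s = k) (hw : 0 ≤ w) (hws : (I.card : ℝ) ≤ w ^ s)
    (h : ∑ i ∈ I, (z i).choose s ≤ k * c.choose s) :
    nm s I (fun i => (z i : ℝ)) ≤ l * c + (s - 1) * w := by
  have hs1 : (0 : ℝ) ≤ s - 1 := by
    have : (1 : ℝ) ≤ s := by exact_mod_cast hs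
    linarith
  have h1 : nm s I (fun i => (z i : ℝ)) ≤
      nm s I (fun i => ((z i + 1 - s : ℕ) : ℝ) + (s - 1)) := by
    apply nm_mono hs I _ _ (fun i _ => Nat.cast_nonneg _)
    intro i _
    have : z i + 1 ≤ (z i + 1 - s) + s := by omega
    have : ((z i + 1 : ℕ) : ℝ) ≤ (((z i + 1 - s) + s : ℕ) : ℝ) := by exact_mod_cast this
    push_cast at this ⊢
    linarith
  have h2 := nm_add_le hs I (fun i => ((z i + 1 - s : ℕ) : ℝ)) (fun _ => (s : ℝ) - 1)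
    (fun i _ => Nat.cast_nonneg _) (fun _ _ => hs1)
  have h3 := nm_const_le hs I ((s : ℝ) - 1) w hs1 hw hws
  have h4 : nm s I (fun i => ((z i + 1 - s : ℕ) : ℝ)) ≤ l * c := by
    apply nm_le hs I _ (fun i _ => Nat.cast_nonneg _) _ (mul_nonneg hl (Nat.cast_nonneg _))
    calc ∑ i ∈ I, ((z i + 1 - s : ℕ) : ℝ) ^ s ≤ ∑ i ∈ I, ((z i).descFactorial s : ℝ) :=
          sum_le_sum fun i _ => sub_pow_le_desc _ _
      _ = (s.factorial * ∑ i ∈ I, (z i).choose s : ℕ) := by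
          push_cast
          rw [mul_sum]
          refine sum_congr rfl fun i _ => ?_
          rw [Nat.descFactorial_eq_factorial_mul_choose]; push_cast; rfl
      _ ≤ (s.factorial * (k * c.choose s) : ℕ) := by
          exact_mod_cast Nat.mul_le_mul_left _ h
      _ = (k * (c.descFactorial s) : ℕ) := by
          rw [Nat.descFactorial_eq_factorial_mul_choose]
          congr 1; ring
      _ ≤ (k * c ^ s : ℕ) := by
          exact_mod_cast Nat.mul_le_mul_left _ (Nat.descFactorial_le_pow _ _)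
      _ = (l * c) ^ s := by rw [mul_pow, hls]; push_cast; rfl
  linarith

/-- a lower bound for the sum of the falling factorials -/
lemma desc_ge {s : ℕ} (hs : 1 ≤ s) (I : Finset ι) (z : ι → ℕ) (n S : ℝ) (hn : (I.card : ℝ) ≤ n)
    (hn0 : 0 < n) (hS : S ≤ ∑ i ∈ I, (z i : ℝ)) (hS0 : 0 ≤ S - (s - 1) * n) :
    (S - (s - 1) * n) ^ s / n ^ (s - 1) ≤ ∑ i ∈ I, ((z i).descFactorial s : ℝ) := by
  obtain ⟨k, rfl⟩ : ∃ k, s = k + 1 := ⟨s - 1, by omega⟩
  simp only [Nat.add_sub_cancel] at *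
  push_cast at *
  rw [add_sub_cancel_right] at *
  have h1 : S - k * n ≤ ∑ i ∈ I, ((z i + 1 - (k + 1) : ℕ) : ℝ) := by
    have : ∑ i ∈ I, (z i : ℝ) ≤ ∑ i ∈ I, (((z i + 1 - (k + 1) : ℕ) : ℝ) + k) := by
      refine sum_le_sum fun i _ => ?_
      have : z i ≤ (z i + 1 - (k + 1)) + k := by omega
      exact_mod_cast this
    rw [sum_add_distrib, sum_const, nsmul_eq_mul] at this
    have h3 : (I.card : ℝ) * k ≤ n * k := mul_le_mul_of_nonneg_right hn (Nat.cast_nonneg _)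
    linarith
  have h2 := pow_sum_div_card_le_sum_pow (s := I) (f := fun i => ((z i + 1 - (k + 1) : ℕ) : ℝ))
    (fun i _ => Nat.cast_nonneg _) k
  have h3 : ∑ i ∈ I, ((z i + 1 - (k + 1) : ℕ) : ℝ) ^ (k + 1) ≤
      ∑ i ∈ I, ((z i).descFactorial (k + 1) : ℝ) := sum_le_sum fun i _ => sub_pow_le_desc _ _
  refine le_trans ?_ (h2.trans h3)
  rcases I.eq_empty_or_nonempty with rfl | hI
  · simp only [sum_empty] at h1
    have : S - k * n = 0 := le_antisymm h1 hS0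
    rw [this]; simp
  · have hI' : (0 : ℝ) < I.card := by exact_mod_cast hI.card_pos
    apply div_le_div₀ (by positivity) (pow_le_pow_left₀ hS0 h1 _) (by positivity)
    exact pow_le_pow_left₀ hI'.le hn _

end Pool.Agent.N396.ZK
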