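import Pool.Agent.N396.ZK.Stm2

/-!
# A bound for the quadratic form of a graph with few vertices of large degree
-/

set_option autoImplicit false

namespace Pool.Agent.N396.ZK

open Finset Classical

/-- indicator of adjacency -/
noncomputable def ad {V : Type} (G : SimpleGraph V) (u v : V) : ℝ := if G.Adj u v then 1 else 0

lemma ad_nonneg {V : Type} (G : SimpleGraph V) (u v : V) : 0 ≤ ad G u v := by
  unfold ad; split_ifs <;> norm_num

lemma ad_comm {V : Type} (G : SimpleGraph V) (u v : V) : ad G u v = ad G v u := by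
  unfold ad; simp [G.adj_comm]

lemma sum_ad {V : Type} [Fintype V] (G : SimpleGraph V) (u : V) :
    ∑ v, ad G u v = ((row G.Adj univ u).card : ℝ) := by
  unfold ad row
  rw [card_filter]; push_cast; rfl

lemma sum_ad_ad {V : Type} [Fintype V] (G : SimpleGraph V) (u w : V) :
    ∑ v, ad G u v * ad G w v = ((univ.filter (fun v => G.Adj u v ∧ G.Adj w v)).card : ℝ) := by
  unfold ad
  rw [card_filter]; push_cast
  refine sum_congr rfl fun v _ => ?_
  by_cases h1 : G.Adj u v <;> by_cases h2 : G.Adj w v <;> simp [h1, h2]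

/-- the part with low degrees -/
lemma quad_low {V : Type} [Fintype V] (G : SimpleGraph V) (x : V → ℝ) (U : Finset V) (D : ℝ)
    (h1 : ∀ v ∈ U, ((row G.Adj univ v).card : ℝ) ≤ D) :
    ∑ u ∈ U, ∑ v ∈ U, ad G u v * (x u * x v) ≤ D * ∑ v ∈ U, x v ^ 2 := by
  have h2 : ∑ u ∈ U, ∑ v ∈ U, ad G u v * (x u * x v) ≤
      ∑ u ∈ U, ∑ v ∈ U, (ad G u v * (x u ^ 2 / 2) + ad G u v * (x v ^ 2 / 2)) := by
    refine sum_le_sum fun u _ => sum_le_sum fun v _ => ?_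
    rw [← mul_add]
    apply mul_le_mul_of_nonneg_left _ (ad_nonneg G u v)
    nlinarith [sq_nonneg (x u - x v)]
  have h3 : ∑ u ∈ U, ∑ v ∈ U, (ad G u v * (x u ^ 2 / 2) + ad G u v * (x v ^ 2 / 2)) =
      ∑ u ∈ U, ∑ v ∈ U, ad G u v * x u ^ 2 := by
    simp_rw [sum_add_distrib]
    have e : ∑ u ∈ U, ∑ v ∈ U, ad G u v * (x v ^ 2 / 2) =
        ∑ u ∈ U, ∑ v ∈ U, ad G u v * (x u ^ 2 / 2) := by
      rw [sum_comm]
      refine sum_congr rfl fun u _ => sum_congr rfl fun v _ => ?_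
      rw [ad_comm]
    rw [e, ← sum_add_distrib]
    refine sum_congr rfl fun u _ => ?_
    rw [← sum_add_distrib]
    refine sum_congr rfl fun v _ => ?_
    ring
  have h4 : ∑ u ∈ U, ∑ v ∈ U, ad G u v * x u ^ 2 ≤ ∑ u ∈ U, D * x u ^ 2 := by
    refine sum_le_sum fun u hu => ?_
    rw [← sum_mul]
    apply mul_le_mul_of_nonneg_right _ (sq_nonneg _)
    refine le_trans ?_ (h1 u hu)
    rw [← sum_ad]
    exact sum_le_sum_of_subset_of_nonneg (subset_univ _) fun v _ _ => ad_nonneg G u v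
  rw [mul_sum]
  linarith

/-- the part with high degrees -/
lemma quad_high {V : Type} [Fintype V] (G : SimpleGraph V) (x : V → ℝ) (W : Finset V) (Λ : ℝ)
    (h1 : ∀ w ∈ W, ∑ w' ∈ W, ((univ.filter (fun v => G.Adj w v ∧ G.Adj w' v)).card : ℝ) ≤ Λ) :
    ∑ v, (∑ w ∈ W, ad G w v * x w) ^ 2 ≤ Λ * ∑ w ∈ W, x w ^ 2 := by
  have e1 : ∑ v, (∑ w ∈ W, ad G w v * x w) ^ 2 =
      ∑ w ∈ W, ∑ w' ∈ W, (∑ v, ad G w v * ad G w' v) * (x w * x w') := by
    simp_rw [sq, sum_mul_sum, sum_mul]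
    rw [sum_comm]
    refine sum_congr rfl fun w _ => ?_
    rw [sum_comm]
    refine sum_congr rfl fun w' _ => sum_congr rfl fun v _ => ?_
    ring
  rw [e1]
  set c : V → V → ℝ := fun w w' => ∑ v, ad G w v * ad G w' v with hc
  have hc0 : ∀ w w', 0 ≤ c w w' := fun w w' =>
    sum_nonneg fun v _ => mul_nonneg (ad_nonneg _ _ _) (ad_nonneg _ _ _)
  have hcc : ∀ w w', c w w' = c w' w := fun w w' => by
    simp only [hc]; exact sum_congr rfl fun v _ => mul_comm _ _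
  have h2 : ∑ w ∈ W, ∑ w' ∈ W, c w w' * (x w * x w') ≤
      ∑ w ∈ W, ∑ w' ∈ W, (c w w' * (x w ^ 2 / 2) + c w w' * (x w' ^ 2 / 2)) := by
    refine sum_le_sum fun u _ => sum_le_sum fun v _ => ?_
    rw [← mul_add]
    apply mul_le_mul_of_nonneg_left _ (hc0 u v)
    nlinarith [sq_nonneg (x u - x v)]
  have h3 : ∑ w ∈ W, ∑ w' ∈ W, (c w w' * (x w ^ 2 / 2) + c w w' * (x w' ^ 2 / 2)) =
      ∑ w ∈ W, ∑ w' ∈ W, c w w' * x w ^ 2 := by
    simp_rw [sum_add_distrib]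
    have e : ∑ u ∈ W, ∑ v ∈ W, c u v * (x v ^ 2 / 2) =
        ∑ u ∈ W, ∑ v ∈ W, c u v * (x u ^ 2 / 2) := by
      rw [sum_comm]
      refine sum_congr rfl fun u _ => sum_congr rfl fun v _ => ?_
      rw [hcc]
    rw [e, ← sum_add_distrib]
    refine sum_congr rfl fun u _ => ?_
    rw [← sum_add_distrib]
    refine sum_congr rfl fun v _ => ?_
    ring
  have h4 : ∑ w ∈ W, ∑ w' ∈ W, c w w' * x w ^ 2 ≤ ∑ w ∈ W, Λ * x w ^ 2 := by
    refine sum_le_sum fun u hu => ?_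
    rw [← sum_mul]
    apply mul_le_mul_of_nonneg_right _ (sq_nonneg _)
    refine le_trans (le_of_eq ?_) (h1 u hu)
    refine sum_congr rfl fun w' _ => ?_
    rw [← sum_ad_ad]
  rw [mul_sum]
  linarith

/-- the quadratic form is at most `(D + 2 √Λ) ‖x‖²` -/
lemma quad {V : Type} [Fintype V] (G : SimpleGraph V) (x : V → ℝ) (W : Finset V) (D Λ : ℝ)
    (hD : 0 ≤ D) (hΛ : 0 ≤ Λ)
    (h0 : ∀ v, v ∉ W → ((row G.Adj univ v).card : ℝ) ≤ D)
    (h1 : ∀ w ∈ W, ∑ w' ∈ W, ((univ.filter (fun v => G.Adj w v ∧ G.Adj w' v)).card : ℝ) ≤ Λ) :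
    ∑ u, ∑ v, ad G u v * (x u * x v) ≤ (D + 2 * √Λ) * ∑ v, x v ^ 2 := by
  set N := ∑ v, x v ^ 2 with hN
  have hN0 : 0 ≤ N := sum_nonneg fun v _ => sq_nonneg _
  set y : V → ℝ := fun v => ∑ w ∈ W, ad G w v * x w with hy
  have hy2 : ∑ v, y v ^ 2 ≤ Λ * N := by
    refine (quad_high G x W Λ h1).trans ?_
    apply mul_le_mul_of_nonneg_left _ hΛ
    exact sum_le_sum_of_subset_of_nonneg (subset_univ _) fun v _ _ => sq_nonneg _
  -- Cauchy-Schwarz
  have hCS : ∀ U : Finset V, ∑ v ∈ U, x v * y v ≤ √Λ * N := by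
    intro U
    have h2 : (∑ v ∈ U, x v * y v) ^ 2 ≤ (∑ v ∈ U, x v ^ 2) * ∑ v ∈ U, y v ^ 2 :=
      sum_mul_sq_le_sq_mul_sq U x y
    have h3 : ∑ v ∈ U, x v ^ 2 ≤ N :=
      sum_le_sum_of_subset_of_nonneg (subset_univ _) fun v _ _ => sq_nonneg _
    have h4 : ∑ v ∈ U, y v ^ 2 ≤ Λ * N :=
      (sum_le_sum_of_subset_of_nonneg (subset_univ _) fun v _ _ => sq_nonneg _).trans hy2
    have h5 : (∑ v ∈ U, x v * y v) ^ 2 ≤ (√Λ * N) ^ 2 := by
      have e : (√Λ * N) ^ 2 = N * (Λ * N) := by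
        rw [mul_pow, Real.sq_sqrt hΛ]; ring
      rw [e]
      exact h2.trans (mul_le_mul h3 h4 (sum_nonneg fun v _ => sq_nonneg _) hN0)
    exact le_of_sq_le_sq h5 (by positivity)
  have e1 : ∑ u, ∑ v, ad G u v * (x u * x v) =
      ∑ u ∈ Wᶜ, ∑ v ∈ Wᶜ, ad G u v * (x u * x v) + ∑ u ∈ Wᶜ, x u * y u + ∑ v, x v * y v := by
    have e2 : ∑ u, ∑ v, ad G u v * (x u * x v) =
        ∑ u ∈ Wᶜ, ∑ v, ad G u v * (x u * x v) + ∑ u ∈ W, ∑ v, ad G u v * (x u * x v) := by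
      rw [add_comm]; exact (sum_add_sum_compl W _).symm
    have e3 : ∑ u ∈ Wᶜ, ∑ v, ad G u v * (x u * x v) =
        ∑ u ∈ Wᶜ, ∑ v ∈ Wᶜ, ad G u v * (x u * x v) + ∑ u ∈ Wᶜ, x u * y u := by
      rw [← sum_add_distrib]
      refine sum_congr rfl fun u _ => ?_
      rw [← sum_add_sum_compl W, add_comm]
      congr 1
      simp only [hy]
      rw [mul_sum]
      refine sum_congr rfl fun w _ => ?_
      rw [ad_comm]; ring
    have e4 : ∑ u ∈ W, ∑ v, ad G u v * (x u * x v) = ∑ v, x v * y v := by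
      rw [sum_comm]
      refine sum_congr rfl fun v _ => ?_
      simp only [hy]
      rw [mul_sum]
      refine sum_congr rfl fun w _ => ?_
      ring
    rw [e2, e3, e4]
  have h5 := quad_low G x Wᶜ D (fun v hv => h0 v (mem_compl.1 hv))
  have h6 : D * ∑ v ∈ Wᶜ, x v ^ 2 ≤ D * N :=
    mul_le_mul_of_nonneg_left
      (sum_le_sum_of_subset_of_nonneg (subset_univ _) fun v _ _ => sq_nonneg _) hD
  have h7 := hCS Wᶜ
  have h8 := hCS univ
  rw [e1]
  linarith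

end Pool.Agent.N396.ZK
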