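import Pool.Agent.N396.ZK.Quad
import Pool.Agent.N655.ZK.Lpz
import Pool.Agent.N603.ZK.Graph

/-!
# The linear programming bound for the spectral radius
-/

set_option autoImplicit false

namespace Pool.Agent.N396.ZK

open Finset Classical Pool.Agent.N603.ZK Pool.Agent.N655.ZK

lemma free_com {n s t : ℕ} {G : SimpleGraph (Fin n)}
    (hG : (completeBipartiteGraph (Fin s) (Fin t)).Free G) (A : Finset (Fin n))
    (hA : A.card = s) : (com G.Adj univ A).card < t := by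
  refine com_lt (fun A B hA hB => ?_) A hA
  by_contra hc
  push Not at hc
  apply hG
  rw [SimpleGraph.completeBipartiteGraph_isContained_iff]
  refine ⟨A, B, by rw [hA, Fintype.card_fin], by rw [hB, Fintype.card_fin], ?_⟩
  intro a ha b hb
  exact hc a ha b hb

/-- few vertices have large degree -/
lemma card_high {n s t : ℕ} {G : SimpleGraph (Fin n)}
    (hG : (completeBipartiteGraph (Fin s) (Fin t)).Free G) (D K' : ℝ) (hK' : 0 < K')
    (h : ∀ (α : Type) [Fintype α] (R : α → Fin n → Prop), K' ≤ (Fintype.card α : ℝ) →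
      (∀ A : Finset α, A.card = s → (com R univ A).card < t) →
      ∑ x, ((row R univ x).card : ℝ) ≤ D * Fintype.card α) :
    ((univ.filter (fun v => D < ((row G.Adj univ v).card : ℝ))).card : ℝ) ≤ K' := by
  by_contra hc
  push Not at hc
  set W := univ.filter (fun v => D < ((row G.Adj univ v).card : ℝ)) with hW
  have h1 := h {x // x ∈ W} (fun w v => G.Adj w.1 v) (by
    rw [Fintype.card_coe]; exact hc.le) (by
    intro A hA
    have h2 := free_com hG (A.map (Function.Embedding.subtype _)) (by rw [card_map]; exact hA)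
    refine lt_of_le_of_lt (card_le_card ?_) h2
    intro y hy
    simp only [com, mem_filter, mem_map, mem_univ, true_and] at hy ⊢
    rintro x ⟨a, ha, rfl⟩
    exact hy a ha)
  have e1 : ∑ x : {x // x ∈ W}, ((row (fun (w : {x // x ∈ W}) v => G.Adj w.1 v) univ x).card : ℝ) =
      ∑ x ∈ W, ((row G.Adj univ x).card : ℝ) := by
    rw [← sum_coe_sort W (fun x => ((row G.Adj univ x).card : ℝ))]
    rfl
  rw [e1, Fintype.card_coe] at h1
  have h2 : ∑ x ∈ W, D < ∑ x ∈ W, ((row G.Adj univ x).card : ℝ) := by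
    apply sum_lt_sum_of_nonempty
    · rw [nonempty_iff_ne_empty]
      intro h0
      rw [h0] at hc
      simp at hc
      linarith
    · intro x hx
      exact (mem_filter.1 hx).2
  rw [sum_const, nsmul_eq_mul] at h2
  linarith

/-- the vertices of `W` have small codegrees in total -/
lemma codeg {n s t : ℕ} (hK : StmKST) (hs : 3 ≤ s) {G : SimpleGraph (Fin n)}
    (hG : (completeBipartiteGraph (Fin s) (Fin t)).Free G) (W : Finset (Fin n)) (D : ℝ)
    (hD : 0 ≤ D) (hDp : (t : ℝ) * (n : ℝ) ^ (s - 2) ≤ D ^ (s - 1)) (w : Fin n) (hw : w ∈ W) :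
    ∑ w' ∈ W, ((univ.filter (fun v => G.Adj w v ∧ G.Adj w' v)).card : ℝ) ≤
      D * W.card + (s + 1) * n := by
  set N := univ.filter (fun v => G.Adj w v) with hN
  have hNn : N.card ≤ n := by
    have := card_le_univ N
    rwa [Fintype.card_fin] at this
  have h1 := hK (Fin n) {v // v ∈ N} (fun w' v => G.Adj w' v.1) (W.erase w) (s - 1) t D 1
    (by omega) hD zero_le_one (by
      rw [one_mul, Fintype.card_coe]
      refine le_trans ?_ hDp
      have e : s - 1 - 1 = s - 2 := by omega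
      rw [e]
      apply mul_le_mul_of_nonneg_left _ (Nat.cast_nonneg _)
      apply pow_le_pow_left₀ (Nat.cast_nonneg _)
      exact_mod_cast hNn) (by
      intro A hA hAc
      have hwA : w ∉ A := fun h => by
        have := hA h
        simp at this
      have h2 := free_com hG (insert w A) (by rw [card_insert_of_notMem hwA, hAc]; omega)
      have h3 : ((com (fun w' (v : {v // v ∈ N}) => G.Adj w' v.1) univ A).map
          (Function.Embedding.subtype _)).card ≤ (com G.Adj univ (insert w A)).card := by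
        apply card_le_card
        intro v hv
        simp only [mem_map, com, mem_filter, mem_univ, true_and] at hv ⊢
        obtain ⟨u, hu, rfl⟩ := hv
        intro x hx
        rcases mem_insert.1 hx with rfl | hx
        · exact (mem_filter.1 u.2).2
        · exact hu x hx
      rw [card_map] at h3
      omega)
  have h4 : ∀ w' : Fin n, ((row (fun w' (v : {v // v ∈ N}) => G.Adj w' v.1) univ w').card : ℝ) =
      ((univ.filter (fun v => G.Adj w v ∧ G.Adj w' v)).card : ℝ) := by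
    intro w'
    have : (row (fun w' (v : {v // v ∈ N}) => G.Adj w' v.1) univ w').map
        (Function.Embedding.subtype _) = univ.filter (fun v => G.Adj w v ∧ G.Adj w' v) := by
      ext v
      simp only [mem_map, row, mem_filter, mem_univ, true_and, Function.Embedding.coe_subtype,
        Subtype.exists, exists_and_right, exists_eq_right, hN]
      constructor
      · rintro ⟨h1, h2⟩; exact ⟨h1, h2⟩
      · rintro ⟨h1, h2⟩; exact ⟨h1, h2⟩
    rw [← this, card_map]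
  simp_rw [h4] at h1
  rw [Fintype.card_coe, one_mul] at h1
  have h5 : ∑ w' ∈ W, ((univ.filter (fun v => G.Adj w v ∧ G.Adj w' v)).card : ℝ) =
      ((univ.filter (fun v => G.Adj w v ∧ G.Adj w v)).card : ℝ) +
      ∑ w' ∈ W.erase w, ((univ.filter (fun v => G.Adj w v ∧ G.Adj w' v)).card : ℝ) :=
    (add_sum_erase W _ hw).symm
  have h6 : ((univ.filter (fun v => G.Adj w v ∧ G.Adj w v)).card : ℝ) ≤ n := by
    have := card_le_univ (univ.filter (fun v => G.Adj w v ∧ G.Adj w v))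
    rw [Fintype.card_fin] at this
    exact_mod_cast this
  have h7 : ((W.erase w).card : ℝ) ≤ W.card := by exact_mod_cast card_le_card (erase_subset _ _)
  have h8 : (N.card : ℝ) ≤ n := by exact_mod_cast hNn
  have h9 : D * (W.erase w).card ≤ D * W.card := mul_le_mul_of_nonneg_left h7 hD
  have h10 : ((s - 1 : ℕ) : ℝ) * N.card ≤ s * n := by
    apply mul_le_mul _ h8 (Nat.cast_nonneg _) (Nat.cast_nonneg _)
    exact_mod_cast Nat.sub_le _ _
  rw [h5]
  linarith

theorem spec (hZ : StmLPZ) (hK : StmKST) (s t k : ℕ) (μ : ℝ) (a : ℕ → ℝ) (hst : s ≤ t)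
    (hk : 1 ≤ k) (hks : k + 1 ≤ s) (hs : 3 ≤ s) (hμ : 0 < μ) (hLP : LP k (t - s + k) μ a) :
    ∃ n₀ : ℕ, ∀ n : ℕ, n₀ ≤ n → ∀ G : SimpleGraph (Fin n),
      (completeBipartiteGraph (Fin s) (Fin t)).Free G →
      ∀ (ρ : ℝ) (x : Fin n → ℝ), x ≠ 0 → (∀ u, ∑ v, ad G u v * x v = ρ * x u) →
      ρ ≤ μ ^ (1 / (s : ℝ)) * (n : ℝ) ^ (1 - 1 / (s : ℝ)) := by
  obtain ⟨μ1, hμ1, hμ1μ, hLP1⟩ := lp_open hμ hLP
  obtain ⟨K, hK0, hZ1⟩ := hZ s t k μ1 a hst hk hks hμ1 hLP1
  have hs0 : (0 : ℝ) < s := by exact_mod_cast (by omega : 0 < s)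
  have hs3 : (3 : ℝ) ≤ s := by exact_mod_cast hs
  obtain ⟨c, hc⟩ : ∃ c : ℝ, c = μ ^ (1 / (s : ℝ)) - μ1 ^ (1 / (s : ℝ)) := ⟨_, rfl⟩
  have hc0 : 0 < c := by
    rw [hc]
    exact sub_pos.2 (Real.rpow_lt_rpow hμ1.le hμ1μ (by positivity))
  obtain ⟨t', ht'⟩ : ∃ t' : ℝ, t' = (t : ℝ) ^ (1 / ((s - 1 : ℕ) : ℝ)) := ⟨_, rfl⟩
  have ht'0 : 0 ≤ t' := by rw [ht']; positivity
  have hsc : ((s - 1 : ℕ) : ℝ) = s - 1 := by
    rw [Nat.cast_sub (by omega)]; push_cast; rfl
  -- the two error terms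
  have e1 : Filter.Tendsto (fun n : ℕ => K * t' * (n : ℝ) ^ (-(1 / ((s : ℝ) - 1) - 1 / s)))
      Filter.atTop (nhds (K * t' * 0)) := by
    apply Filter.Tendsto.const_mul
    refine (tendsto_rpow_neg_atTop ?_).comp tendsto_natCast_atTop_atTop
    have : 1 / (s : ℝ) < 1 / ((s : ℝ) - 1) := by
      apply one_div_lt_one_div_of_lt <;> linarith
    linarith
  have e2 : Filter.Tendsto (fun n : ℕ => ((s : ℝ) + 1) * (n : ℝ) ^ (-(1 - 2 / (s : ℝ))))
      Filter.atTop (nhds (((s : ℝ) + 1) * 0)) := by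
    apply Filter.Tendsto.const_mul
    refine (tendsto_rpow_neg_atTop ?_).comp tendsto_natCast_atTop_atTop
    have : 2 / (s : ℝ) < 1 := by
      rw [div_lt_one hs0]; linarith
    linarith
  rw [mul_zero] at e1 e2
  have hc8 : 0 < c ^ 2 / 8 := by positivity
  have f1 := e1.eventually (gt_mem_nhds hc8)
  have f2 := e2.eventually (gt_mem_nhds hc8)
  have f3 : ∀ᶠ n : ℕ in Filter.atTop, K ≤ (n : ℝ) :=
    tendsto_natCast_atTop_atTop.eventually_ge_atTop K
  have f4 : ∀ᶠ n : ℕ in Filter.atTop, 1 ≤ n := Filter.eventually_ge_atTop 1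
  obtain ⟨n₀, hn₀⟩ := Filter.eventually_atTop.1 (f1.and (f2.and (f3.and f4)))
  refine ⟨n₀, fun n hn G hG ρ x hx hev => ?_⟩
  obtain ⟨g1, g2, g3, g4⟩ := hn₀ n hn
  have hn0 : (0 : ℝ) < n := by exact_mod_cast g4
  obtain ⟨q, hq⟩ : ∃ q : ℝ, q = (n : ℝ) ^ (1 - 1 / (s : ℝ)) := ⟨_, rfl⟩
  have hq0 : 0 < q := by rw [hq]; positivity
  obtain ⟨D, hD⟩ : ∃ D : ℝ, D = μ1 ^ (1 / (s : ℝ)) * q := ⟨_, rfl⟩
  have hD0 : 0 ≤ D := by rw [hD]; positivity
  set W := univ.filter (fun v => D < ((row G.Adj univ v).card : ℝ)) with hW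
  have hWc : (W.card : ℝ) ≤ K * q := by
    apply card_high hG D (K * q) (by positivity)
    intro α _ R h1 h2
    have h3 := hZ1 α (Fin n) R (by rwa [Fintype.card_fin]) (by
      rw [Fintype.card_fin, ← hq]; exact h1) h2
    rw [Fintype.card_fin, ← hq] at h3
    rw [hD]
    linarith
  obtain ⟨D2, hD2⟩ : ∃ D2 : ℝ, D2 = t' * (n : ℝ) ^ (1 - 1 / ((s : ℝ) - 1)) := ⟨_, rfl⟩
  have hD20 : 0 ≤ D2 := by rw [hD2]; positivity
  have hD2p : D2 ^ (s - 1) = (t : ℝ) * (n : ℝ) ^ (s - 2) := by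
    have := D_pow (s - 1) (t : ℝ) (Nat.cast_nonneg _) (by omega) (n : ℝ) hn0
    rw [hD2, ht']
    rw [hsc] at this ⊢
    rw [this]
    congr 1
  obtain ⟨Λ, hΛ⟩ : ∃ Λ : ℝ, Λ = D2 * (K * q) + (s + 1) * n := ⟨_, rfl⟩
  have hΛ0 : 0 ≤ Λ := by rw [hΛ]; positivity
  have hcod : ∀ w ∈ W, ∑ w' ∈ W, ((univ.filter (fun v => G.Adj w v ∧ G.Adj w' v)).card : ℝ) ≤ Λ := by
    intro w hw
    refine (codeg hK hs hG W D2 hD20 hD2p.ge w hw).trans ?_
    rw [hΛ]
    have := mul_le_mul_of_nonneg_left hWc hD20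
    linarith
  have hquad := quad G x W D Λ hD0 hΛ0 (fun v hv => by
    by_contra h
    push Not at h
    exact hv (mem_filter.2 ⟨mem_univ _, h⟩)) hcod
  have hlhs : ∑ u, ∑ v, ad G u v * (x u * x v) = ρ * ∑ v, x v ^ 2 := by
    rw [mul_sum]
    refine sum_congr rfl fun u _ => ?_
    have : ∑ v, ad G u v * (x u * x v) = x u * ∑ v, ad G u v * x v := by
      rw [mul_sum]; exact sum_congr rfl fun v _ => by ring
    rw [this, hev]; ring
  have hN : 0 < ∑ v, x v ^ 2 := by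
    obtain ⟨i, hi⟩ := Function.ne_iff.1 hx
    apply sum_pos' (fun v _ => sq_nonneg _)
    exact ⟨i, mem_univ _, by have : x i ≠ 0 := hi; positivity⟩
  rw [hlhs] at hquad
  have hρ : ρ ≤ D + 2 * √Λ := le_of_mul_le_mul_right hquad hN
  -- the error is small
  have hΛle : Λ ≤ (c / 2 * q) ^ 2 := by
    have hq2 : q ^ 2 = (n : ℝ) ^ (2 - 2 / (s : ℝ)) := by
      rw [hq, ← Real.rpow_natCast, ← Real.rpow_mul hn0.le]
      congr 1; push_cast; ring
    have h1 : D2 * (K * q) = K * t' * (n : ℝ) ^ (-(1 / ((s : ℝ) - 1) - 1 / s)) * q ^ 2 := by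
      rw [hq2, hD2, hq]
      have : (n : ℝ) ^ (1 - 1 / ((s : ℝ) - 1)) * (n : ℝ) ^ (1 - 1 / (s : ℝ)) =
          (n : ℝ) ^ (-(1 / ((s : ℝ) - 1) - 1 / s)) * (n : ℝ) ^ (2 - 2 / (s : ℝ)) := by
        rw [← Real.rpow_add hn0, ← Real.rpow_add hn0]
        congr 1; ring
      calc t' * (n : ℝ) ^ (1 - 1 / ((s : ℝ) - 1)) * (K * (n : ℝ) ^ (1 - 1 / (s : ℝ))) =
          K * t' * ((n : ℝ) ^ (1 - 1 / ((s : ℝ) - 1)) * (n : ℝ) ^ (1 - 1 / (s : ℝ))) := by ring
        _ = _ := by rw [this]; ring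
    have h2 : ((s : ℝ) + 1) * n = (s + 1) * (n : ℝ) ^ (-(1 - 2 / (s : ℝ))) * q ^ 2 := by
      rw [hq2, mul_assoc, ← Real.rpow_add hn0]
      congr 1
      have : -(1 - 2 / (s : ℝ)) + (2 - 2 / s) = 1 := by ring
      rw [this, Real.rpow_one]
    have hq20 : 0 < q ^ 2 := by positivity
    have h3 := mul_le_mul_of_nonneg_right g1.le hq20.le
    have h4 := mul_le_mul_of_nonneg_right g2.le hq20.le
    rw [hΛ, h1, h2]
    have : (c / 2 * q) ^ 2 = c ^ 2 / 8 * q ^ 2 + c ^ 2 / 8 * q ^ 2 := by ring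
    rw [this]
    linarith
  have hsq : √Λ ≤ c / 2 * q := by
    rw [← Real.sqrt_sq (by positivity : 0 ≤ c / 2 * q)]
    exact Real.sqrt_le_sqrt hΛle
  rw [← hq]
  have : D + 2 * (c / 2 * q) = μ ^ (1 / (s : ℝ)) * q := by rw [hD, hc]; ring
  linarith

end Pool.Agent.N396.ZK
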