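import Mathlib

/-!
# Füredi's bound for `K_{s,t}` is not sharp: statements of the parts

`R : α → β → Prop` is a 0-1 matrix with rows `α` and columns `β`.
-/

set_option autoImplicit false

namespace Pool.Agent.N396.ZK

open Finset Classical

/-- the columns in `Q` which have a one in the row `x` -/
noncomputable def row {α β : Type} (R : α → β → Prop) (Q : Finset β) (x : α) : Finset β :=
  Q.filter (fun y => R x y)

/-- the columns in `Q` which have a one in all rows of `A` -/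
noncomputable def com {α β : Type} (R : α → β → Prop) (Q : Finset β) (A : Finset α) : Finset β :=
  Q.filter (fun y => ∀ x ∈ A, R x y)

/-- the rows in `P` which have a one in all columns of `B` -/
noncomputable def rws {α β : Type} (R : α → β → Prop) (P : Finset α) (B : Finset β) : Finset α :=
  P.filter (fun x => ∀ y ∈ B, R x y)

/-- the `ℓ_s` norm of `f` over the finite set `I` -/
noncomputable def nm {ι : Type} (s : ℕ) (I : Finset ι) (f : ι → ℝ) : ℝ :=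
  (∑ i ∈ I, f i ^ s) ^ (1 / (s : ℝ))

/-- Hölder step -/
def StmHS : Prop := ∀ (ι : Type) (s : ℕ), 1 ≤ s →
  ∀ (I : Finset ι) (m : ι → ι → ℝ) (a : ι → ℝ) (ρ κ E : ℝ),
  (∀ y ∈ I, ∀ z ∈ I, 0 ≤ m y z) → (∀ y ∈ I, 0 ≤ a y) → 0 ≤ ρ → 0 ≤ κ → 0 ≤ E →
  (∀ y ∈ I, ρ * a y ≤ ∑ z ∈ I, m y z) → (∀ z ∈ I, nm s I (fun y => m y z) ≤ κ * a z + E) →
  ρ * nm s I a ≤ κ * ∑ y ∈ I, a y + I.card * E

/-- the core: a matrix all of whose rows have about `D` ones and which attains Füredi's bound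
does not exist -/
def StmCore : Prop := ∀ (s L : ℕ), 2 ≤ s → 3 ≤ L → ∃ ε K : ℝ, 0 < ε ∧ ε < 1 ∧ 0 < K ∧
  ∀ (α β : Type) (R : α → β → Prop) (P : Finset α) (Q : Finset β) (n D : ℝ),
  (Q.card : ℝ) ≤ n → (L : ℝ) ≤ n → 0 < D → D ^ s = L * n ^ (s - 1) →
  K * n ^ 3 ≤ P.card * D ^ 3 →
  (∀ x ∈ P, (1 - ε) * D + 2 ≤ ((row R Q x).card : ℝ) ∧ ((row R Q x).card : ℝ) ≤ (1 + ε) * D) →
  (∀ A ⊆ P, A.card = s → (com R Q A).card ≤ L + 2) → False

/-- Füredi's inequality for the row degrees -/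
def StmDeg : Prop := ∀ (α β : Type) [Fintype α] [Fintype β] (R : α → β → Prop) (s L : ℕ) (D : ℝ),
  2 ≤ s → 0 ≤ D → D ^ s = L * (Fintype.card β : ℝ) ^ (s - 1) →
  (∀ A : Finset α, A.card = s → (com R univ A).card ≤ L + s - 2) →
  ∑ x, ((row R univ x).card.descFactorial (s - 2) : ℝ) * ((row R univ x).card - D - s) ≤
    s * (Fintype.card β : ℝ) ^ (s - 1)

/-- from Füredi's inequality to the concentration of the degrees -/
def StmConc : Prop := ∀ (s L : ℕ), 3 ≤ s → 1 ≤ L → ∀ ε : ℝ, 0 < ε → ∃ η K : ℝ, 0 < η ∧ 0 < K ∧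
  ∀ (α : Type) [Fintype α] (d : α → ℕ) (n D : ℝ), 0 < n → D ^ s = L * n ^ (s - 1) →
  K ≤ D → K * D ≤ Fintype.card α →
  ∑ x, ((d x).descFactorial (s - 2) : ℝ) * (d x - D - s) ≤ s * n ^ (s - 1) →
  (1 - η) * (Fintype.card α * D) ≤ ∑ x, (d x : ℝ) →
  (Fintype.card α : ℝ) / 2 ≤
    ((univ.filter (fun x => (1 - ε) * D ≤ (d x : ℝ) ∧ (d x : ℝ) ≤ (1 + ε) * D)).card : ℝ)

/-- a set of `k` columns with many common rows in `W` -/
def StmSel : Prop := ∀ (α β : Type) [Fintype β] (R : α → β → Prop) (W : Finset α) (k : ℕ) (e : ℝ),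
  0 ≤ e → 0 < Fintype.card β → k ≤ Fintype.card β →
  (∀ x ∈ W, e + k ≤ ((row R univ x).card : ℝ)) →
  ∃ B : Finset β, B.card = k ∧
    (W.card : ℝ) * (e / Fintype.card β) ^ k ≤ ((rws R W B).card : ℝ)

/-- the theorem for matrices -/
def StmZ (s t : ℕ) : Prop := ∃ δ K : ℝ, 0 < δ ∧ 0 < K ∧
  ∀ (α β : Type) [Fintype α] [Fintype β] (R : α → β → Prop),
  K ≤ (Fintype.card β : ℝ) →
  K * (Fintype.card β : ℝ) ^ (1 - 1 / (s : ℝ)) ≤ (Fintype.card α : ℝ) →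
  (∀ A : Finset α, A.card = s → (com R univ A).card < t) →
  ∑ x, ((row R univ x).card : ℝ) ≤
    (1 - δ) * ((t : ℝ) - s + 1) ^ (1 / (s : ℝ)) * Fintype.card α *
      (Fintype.card β : ℝ) ^ (1 - 1 / (s : ℝ))

/-- the theorem for graphs -/
def StmG (s t : ℕ) : Prop := ∃ δ : ℝ, 0 < δ ∧ ∃ n₀ : ℕ, ∀ n : ℕ, n₀ ≤ n →
  (SimpleGraph.extremalNumber n (completeBipartiteGraph (Fin s) (Fin t)) : ℝ) ≤
    (1 - δ) / 2 * ((t : ℝ) - s + 1) ^ (1 / (s : ℝ)) * (n : ℝ) ^ (2 - 1 / (s : ℝ))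

/-- the theorem for matrices with `m` rows and `n` columns, ones counted as pairs -/
def StmM (s t : ℕ) : Prop := ∃ δ K : ℝ, 0 < δ ∧ 0 < K ∧
  ∀ (m n : ℕ) (R : Fin m → Fin n → Prop),
  K ≤ (n : ℝ) → K * (n : ℝ) ^ (1 - 1 / (s : ℝ)) ≤ (m : ℝ) →
  (∀ (A : Finset (Fin m)) (B : Finset (Fin n)), A.card = s → B.card = t →
    ∃ i ∈ A, ∃ j ∈ B, ¬ R i j) →
  (Nat.card {p : Fin m × Fin n // R p.1 p.2} : ℝ) ≤
    (1 - δ) * ((t : ℝ) - s + 1) ^ (1 / (s : ℝ)) * m * (n : ℝ) ^ (1 - 1 / (s : ℝ))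

end Pool.Agent.N396.ZK
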