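import Pool.Agent.N396.ZK.Stm

/-!
# A linear programming bound for `ex(n, K_{s,t})`: statements of the parts

`ch μ j x` is the value at `x` of the monic Charlier polynomial of degree `j` with parameter `μ`.
-/

set_option autoImplicit false

namespace Pool.Agent.N396.ZK

open Finset Classical

/-- the monic Charlier polynomial of degree `j` with parameter `μ` at the integer `x` -/
noncomputable def ch (μ : ℝ) (j x : ℕ) : ℝ :=
  ∑ i ∈ range (j + 1), (-1) ^ (j - i) * (j.choose i : ℝ) * μ ^ (j - i) * (x.descFactorial i : ℝ)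

/-- product of the centred indicators of `T` and `T'` -/
noncomputable def ww {β : Type} (S T T' : Finset β) (y : β) : ℝ :=
  ((if y ∈ T then (1 : ℝ) else 0) - (T.card : ℝ) / S.card) *
    ((if y ∈ T' then (1 : ℝ) else 0) - (T'.card : ℝ) / S.card)

/-- elementary symmetric sum -/
noncomputable def es {β : Type} (j : ℕ) (S : Finset β) (w : β → ℝ) : ℝ :=
  ∑ Y ∈ S.powersetCard j, ∏ y ∈ Y, w y

/-- the elementary symmetric sums tend to the Charlier polynomials -/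
def StmLim : Prop := ∀ (k M : ℕ) (μ δ : ℝ), 0 < μ → 0 < δ → ∃ K : ℝ, 0 < K ∧
  ∀ (β : Type) (S T T' : Finset β) (d : ℕ), T ⊆ S → T' ⊆ S → T.card = d → T'.card = d →
    (T ∩ T').card ≤ M → K ≤ d → |(d : ℝ) ^ 2 / S.card - μ| ≤ 1 / K →
    ∀ j ≤ k, |(j.factorial : ℝ) * es j S (ww S T T') - ch μ j (T ∩ T').card| ≤ δ

/-- the nonnegative combination `∑ a_j C_j`, `1 ≤ j ≤ k`, of Charlier polynomials is negative
on `0, …, M` -/
def LP (k M : ℕ) (μ : ℝ) (a : ℕ → ℝ) : Prop :=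
  (∀ j, 0 ≤ a j) ∧ ∀ X ≤ M, ∑ j ∈ Icc 1 k, a j * ch μ j X < 0

/-- no large family of `d`-sets with small pairwise intersections -/
def StmFin : Prop := ∀ (k M : ℕ) (μ : ℝ) (a : ℕ → ℝ), 0 < μ → LP k M μ a → ∃ K : ℝ, 0 < K ∧
  ∀ (α β : Type) (G : Finset α) (S : Finset β) (T : α → Finset β) (d : ℕ),
    (∀ x ∈ G, T x ⊆ S) → (∀ x ∈ G, (T x).card = d) →
    (∀ x ∈ G, ∀ x' ∈ G, x ≠ x' → (T x ∩ T x').card ≤ M) → K ≤ d → K * (d : ℝ) ^ k ≤ G.card →
    |(d : ℝ) ^ 2 / S.card - μ| ≤ 1 / K → False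

/-- choice of `s - 2` rows with many common columns `S` such that the rows meet `S` well -/
def StmPick : Prop := ∀ (s : ℕ) (μ ε : ℝ), 2 ≤ s → 0 < μ → 0 < ε → ∃ K : ℝ, 0 < K ∧
  ∀ (α β : Type) (R : α → β → Prop) (P : Finset α) (Q : Finset β) (n D : ℝ),
    (Q.card : ℝ) ≤ n → 0 < D → K ≤ n / D → D ^ s = μ * n ^ (s - 1) →
    K * (n / D) ≤ P.card → (∀ x ∈ P, D ≤ ((row R Q x).card : ℝ)) →
    ∃ B ⊆ P, B.card = s - 2 ∧
      -ε * (μ * (n / D)) ^ 2 ≤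
        2 * (μ * (n / D)) *
            ((∑ y ∈ com R Q B, ((P.filter (fun x => R x y)).card : ℝ)) / P.card) -
          (μ * (n / D)) ^ 2 - μ * (com R Q B).card

/-- the core for matrices all of whose rows have at least `D` ones -/
def StmCore2 : Prop := ∀ (s k M : ℕ) (μ μ' : ℝ) (a : ℕ → ℝ), 2 ≤ s → 1 ≤ k → 1 ≤ M → 0 < μ' →
  μ' < μ → LP k M μ' a → ∃ K : ℝ, 0 < K ∧
  ∀ (α β : Type) (R : α → β → Prop) (P : Finset α) (Q : Finset β) (n D : ℝ),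
    (Q.card : ℝ) ≤ n → 0 < D → K ≤ n / D → D ^ s = μ * n ^ (s - 1) →
    K * (n / D) ^ k ≤ P.card → (∀ x ∈ P, D ≤ ((row R Q x).card : ℝ)) →
    (∀ A ⊆ P, A.card = s → (com R Q A).card ≤ M) → False

/-- the Kovari-Sos-Turan inequality for the rows in `H` -/
def StmKST : Prop := ∀ (α β : Type) [Fintype β] (R : α → β → Prop) (H : Finset α) (s t : ℕ)
  (D C : ℝ), 1 ≤ s → 0 ≤ D → 0 ≤ C → (t : ℝ) * (Fintype.card β : ℝ) ^ (s - 1) ≤ (C * D) ^ s →
  (∀ A ⊆ H, A.card = s → (com R univ A).card ≤ t) →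
  ∑ x ∈ H, ((row R univ x).card : ℝ) ≤ C * D * H.card + s * Fintype.card β

/-- the linear programming bound for matrices -/
def StmLPZ : Prop := ∀ (s t k : ℕ) (μ : ℝ) (a : ℕ → ℝ), s ≤ t → 1 ≤ k → k + 1 ≤ s → 0 < μ →
  LP k (t - s + k) μ a → ∃ K : ℝ, 0 < K ∧
  ∀ (α β : Type) [Fintype α] [Fintype β] (R : α → β → Prop),
  K ≤ (Fintype.card β : ℝ) →
  K * (Fintype.card β : ℝ) ^ (1 - 1 / (s : ℝ)) ≤ (Fintype.card α : ℝ) →
  (∀ A : Finset α, A.card = s → (com R univ A).card < t) →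
  ∑ x, ((row R univ x).card : ℝ) ≤
    μ ^ (1 / (s : ℝ)) * Fintype.card α * (Fintype.card β : ℝ) ^ (1 - 1 / (s : ℝ))

/-- the linear programming bound for graphs -/
def StmLPG : Prop := ∀ (s t k : ℕ) (μ : ℝ) (a : ℕ → ℝ), s ≤ t → 1 ≤ k → k + 1 ≤ s → 0 < μ →
  LP k (t - s + k) μ a → ∃ n₀ : ℕ, ∀ n : ℕ, n₀ ≤ n →
  (SimpleGraph.extremalNumber n (completeBipartiteGraph (Fin s) (Fin t)) : ℝ) ≤
    μ ^ (1 / (s : ℝ)) / 2 * (n : ℝ) ^ (2 - 1 / (s : ℝ))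

/-- the monic Charlier polynomial of degree `j` with parameter `μ` at the real number `x` -/
noncomputable def chR (μ : ℝ) (j : ℕ) (x : ℝ) : ℝ :=
  ∑ i ∈ range (j + 1), (-1) ^ (j - i) * (j.choose i : ℝ) * μ ^ (j - i) *
    ∏ l ∈ range i, (x - l)

/-- a zero of the Charlier polynomial of degree `r` beyond `M` gives a solution of the linear
programme with `k = 2 r - 1` -/
def StmCh : Prop := ∀ (r M : ℕ) (μ h : ℝ), 1 ≤ r → 0 < μ → (M : ℝ) < h → chR μ r h = 0 →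
  ∃ a : ℕ → ℝ, LP (2 * r - 1) M μ a

end Pool.Agent.N396.ZK
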